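import Pool.Agent.H87.IS.Stmts2

set_option autoImplicit false

namespace Pool.Agent.H87.IS

open Polynomial in
theorem BE1 : BE1Stmt := by
  classical
  intro k _ _ _ g M hM hg
  have hinj : Function.Injective (algebraMap k ℂ) := (algebraMap k ℂ).injective
  by_cases hg0 : g = 0
  · refine ⟨{0}, fun c hc x h1 _ => ?_⟩
    subst hg0
    rw [Finset.mem_singleton] at hc
    rw [zero_add, map_mul, map_pow, aeval_C, aeval_X] at h1
    rcases mul_eq_zero.1 h1 with h2 | h2
    · exact absurd (hinj (h2.trans (map_zero _).symm)) hc
    · exact eq_zero_of_pow_eq_zero h2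
  · set P : Polynomial k := C (M : k) * g - X * derivative g with hPdef
    have hP : P ≠ 0 := by
      intro h0
      have h1 := congrArg (fun q => q.coeff g.natDegree) h0
      simp only [hPdef, coeff_sub, coeff_C_mul, coeff_zero] at h1
      have h2 : (X * derivative g).coeff g.natDegree = (g.natDegree : k) * g.coeff g.natDegree := by
        rcases Nat.eq_zero_or_pos g.natDegree with h | h
        · rw [h]
          simp
        · obtain ⟨e, he⟩ : ∃ e, g.natDegree = e + 1 := ⟨g.natDegree - 1, by omega⟩
          rw [he, coeff_X_mul, coeff_derivative]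
          push_cast
          ring
      rw [h2, ← sub_mul] at h1
      rcases mul_eq_zero.1 h1 with h3 | h3
      · have h4 : (M : k) = (g.natDegree : k) := sub_eq_zero.1 h3
        have h5 : M = g.natDegree := Nat.cast_injective h4
        omega
      · exact hg0 (leadingCoeff_eq_zero.1 h3)
    have hPm : P.map (algebraMap k ℂ) ≠ 0 := by
      intro h
      exact hP (Polynomial.map_injective _ hinj (h.trans (Polynomial.map_zero _).symm))
    let Bc : Finset ℂ := (P.map (algebraMap k ℂ)).roots.toFinset.image
      (fun x => -(aeval x g) / x ^ M)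
    refine ⟨Bc.preimage (algebraMap k ℂ) hinj.injOn, fun c hc x h1 h2 => ?_⟩
    by_contra hx
    apply hc
    rw [Finset.mem_preimage]
    apply Finset.mem_image.2
    refine ⟨x, ?_, ?_⟩
    · rw [Multiset.mem_toFinset, mem_roots hPm, IsRoot.def, eval_map_algebraMap]
      have h3 : P = C (M : k) * (g + C c * X ^ M) - X * derivative (g + C c * X ^ M) := by
        obtain ⟨m, rfl⟩ : ∃ m, M = m + 1 := ⟨M - 1, by omega⟩
        rw [hPdef]
        simp only [derivative_add, derivative_mul, derivative_C, derivative_X_pow, zero_mul, zero_add,
          Nat.add_sub_cancel]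
        ring
      rw [h3, map_sub, map_mul, map_mul, h1, h2, mul_zero, mul_zero, sub_zero]
    · rw [map_add, map_mul, map_pow, aeval_C, aeval_X] at h1
      rw [div_eq_iff (pow_ne_zero M hx)]
      linear_combination -h1

end Pool.Agent.H87.IS
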